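import Pool.Agent.H211.CH.Stm2

/-!
# Project CH: `S_FIB` (the fibre product is parametrised), from `S_IRR`

The homomorphism `K[y][x] → K[t]`, `y ↦ p (t)`, `x ↦ Y (t)`, is integral and its kernel is generated by the irreducible
polynomial `p (x) - F (y)`; so the claim follows by lying over for the maximal ideal of the point `(y₀, x₀)`.
-/

set_option autoImplicit false

open Polynomial

namespace Pool.Agent.H400.CH211

open Pool.Agent.H211.CH

universe u

section

variable {K : Type u} [Field K]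

/-- `y ↦ p (t)`, `x ↦ Y (t)` -/
noncomputable def phi (p Y : K[X]) : K[X][X] →+* K[X] := eval₂RingHom (compRingHom p) Y

theorem phi_C (p Y a : K[X]) : phi p Y (C a) = a.comp p := by
  simp [phi]

theorem phi_X (p Y : K[X]) : phi p Y X = Y := by
  simp [phi]

theorem phi_mapC (p Y q : K[X]) : phi p Y (q.map C) = q.comp Y := by
  have h : (compRingHom p).comp (C : K →+* K[X]) = (C : K →+* K[X]) := by
    ext a
    simp
  show eval₂ (compRingHom p) Y (q.map C) = q.comp Y
  rw [eval₂_map, h]
  rfl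

theorem monic_q {p : K[X]} (F : K[X]) (hp : p.Monic) (hp0 : 0 < p.natDegree) :
    (p.map C - C F : K[X][X]).Monic := by
  apply (hp.map (C : K →+* K[X])).sub_of_left
  refine lt_of_le_of_lt degree_C_le ?_
  rw [degree_map_eq_of_injective (C_injective)]
  exact natDegree_pos_iff_degree_pos.1 hp0

/-- The kernel of `phi`. -/
theorem ker_phi {F p Y : K[X]} (hp : p.Monic) (hp0 : 0 < p.natDegree)
    (hirr : Irreducible (p.map C - C F : K[X][X])) (hc : F.comp p = p.comp Y) (g : K[X][X])
    (hg : phi p Y g = 0) : g ∈ Ideal.span {(p.map C - C F : K[X][X])} := by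
  have hq := monic_q F hp hp0
  set I : Ideal K[X][X] := Ideal.span {(p.map C - C F : K[X][X])} with hI
  have hprime : I.IsPrime := (Ideal.span_singleton_prime hq.ne_zero).2 hirr.prime
  have hdom : IsDomain (K[X][X] ⧸ I) := Ideal.Quotient.isDomain I
  have hmem : (p.map C - C F : K[X][X]) ∈ I := Ideal.subset_span rfl
  have hint : Algebra.IsIntegral K[X] (K[X][X] ⧸ I) :=
    ⟨fun a => hq.quotient_isIntegral hmem a⟩
  have hle : ∀ a ∈ I, phi p Y a = 0 := by
    intro a ha
    obtain ⟨b, rfl⟩ := Ideal.mem_span_singleton'.1 ha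
    rw [map_mul, map_sub, phi_mapC, phi_C, hc, sub_self, mul_zero]
  let ψ : K[X][X] ⧸ I →+* K[X] := Ideal.Quotient.lift I (phi p Y) hle
  have hcomap : (RingHom.ker ψ).comap (algebraMap K[X] (K[X][X] ⧸ I)) = ⊥ := by
    rw [eq_bot_iff]
    intro r hr
    have h1 : phi p Y (C r) = 0 := hr
    rw [phi_C] at h1
    rcases comp_eq_zero_iff.1 h1 with h2 | h2
    · exact h2
    · exfalso
      have h3 := congrArg natDegree h2.2
      rw [natDegree_C] at h3
      omega
  have hker : RingHom.ker ψ = ⊥ := by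
    by_contra hne
    obtain ⟨z, hz, hz0⟩ := Submodule.exists_mem_ne_zero_of_ne_bot hne
    exact Ideal.comap_ne_bot_of_integral_mem (R := K[X]) hz0 hz
      (Algebra.IsIntegral.isIntegral z) hcomap
  have h4 : Ideal.Quotient.mk I g ∈ RingHom.ker ψ := by
    rw [RingHom.mem_ker]
    exact hg
  rw [hker] at h4
  exact Ideal.Quotient.eq_zero_iff_mem.1 h4

/-- `phi` is integral. -/
theorem int_phi {p : K[X]} (Y : K[X]) (hp : p.Monic) (hp0 : 0 < p.natDegree) (f : K[X]) :
    (phi p Y).IsIntegralElem f := by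
  -- constants
  have hC : ∀ a : K, (phi p Y).IsIntegralElem (C a) := by
    intro a
    have h1 : phi p Y (C (C a)) = C a := by rw [phi_C, C_comp]
    rw [← h1]
    exact RingHom.isIntegralElem_map (phi p Y)
  -- the variable
  have hX : (phi p Y).IsIntegralElem (X : K[X]) := by
    have hcomp : (phi p Y).comp ((C : K[X] →+* K[X][X]).comp (C : K →+* K[X])) =
        (C : K →+* K[X]) := by
      ext a
      simp [phi_C]
    refine ⟨p.map ((C : K[X] →+* K[X][X]).comp (C : K →+* K[X])) - C (C X), ?_, ?_⟩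
    · apply (hp.map _).sub_of_left
      refine lt_of_le_of_lt degree_C_le ?_
      have hinj : Function.Injective ((C : K[X] →+* K[X][X]).comp (C : K →+* K[X])) :=
        (C_injective (R := K[X])).comp (C_injective (R := K))
      rw [degree_map_eq_of_injective hinj]
      exact natDegree_pos_iff_degree_pos.1 hp0
    · rw [eval₂_sub, eval₂_map, eval₂_C, hcomp, phi_C, X_comp, eval₂_C_X, sub_self]
  induction f using Polynomial.induction_on with
  | C a => exact hC a
  | add f g hf hg => exact hf.add _ hg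
  | monomial n a h =>
    rw [pow_succ, ← mul_assoc]
    exact h.mul _ hX

theorem fib_monic [IsAlgClosed K] (hIRR : S_IRR K) (F p Y : K[X]) (hp : p.Monic)
    (hp0 : 0 < p.natDegree) (hF0 : 0 < F.natDegree) (hcop : Nat.Coprime p.natDegree F.natDegree)
    (hc : F.comp p = p.comp Y) (x y : K) (hxy : p.eval x = F.eval y) :
    ∃ t : K, p.eval t = y ∧ Y.eval t = x := by
  have hirr := hIRR p F hp0 hF0 hcop
  -- the point
  let ev : K[X][X] →+* K := (evalRingHom x).comp (mapRingHom (evalRingHom y))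
  have evC : ∀ a : K[X], ev (C a) = a.eval y := by
    intro a
    simp [ev]
  have evX : ev X = x := by
    simp [ev]
  have evmap : ∀ a : K[X], ev (a.map C) = a.eval x := by
    intro a
    have h : (evalRingHom y).comp (C : K →+* K[X]) = RingHom.id K := by
      ext b
      simp
    show eval x ((a.map C).map (evalRingHom y)) = a.eval x
    rw [map_map, h, map_id]
  let alg : Algebra K[X][X] K[X] := (phi p Y).toAlgebra
  have hint : @Algebra.IsIntegral K[X][X] K[X] _ _ alg := ⟨fun f => int_phi Y hp hp0 f⟩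
  have hMprime : (RingHom.ker ev).IsPrime := RingHom.ker_isPrime ev
  have hle : (⊥ : Ideal K[X]).comap (@algebraMap K[X][X] K[X] _ _ alg) ≤ RingHom.ker ev := by
    intro g hg
    have hg0 : phi p Y g = 0 := hg
    obtain ⟨b, rfl⟩ := Ideal.mem_span_singleton'.1 (ker_phi hp hp0 hirr hc g hg0)
    rw [RingHom.mem_ker, map_mul, map_sub, evmap, evC, hxy, sub_self, mul_zero]
  obtain ⟨Q, -, hQ, hQc⟩ :=
    @Ideal.exists_ideal_over_prime_of_isIntegral K[X][X] _ K[X] _ alg hint (RingHom.ker ev) hMprime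
      ⊥ hle
  have hmemQ : ∀ g : K[X][X], ev g = 0 → phi p Y g ∈ Q := by
    intro g hg
    have h : g ∈ Q.comap (@algebraMap K[X][X] K[X] _ _ alg) := by
      rw [hQc]
      exact hg
    exact h
  have h1 : p - C y ∈ Q := by
    have h := hmemQ (C (X - C y)) (by rw [evC]; simp)
    rw [phi_C] at h
    simpa using h
  have h2 : Y - C x ∈ Q := by
    have h := hmemQ (X - C (C x)) (by rw [map_sub, evC, evX]; simp)
    rw [map_sub, phi_C, phi_X] at h
    simpa using h
  -- a generator of `Q` has a root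
  obtain ⟨g, hg⟩ := (IsPrincipalIdealRing.principal Q).principal
  have hg' : Q = Ideal.span {g} := hg
  rw [hg', Ideal.mem_span_singleton] at h1 h2
  have hne : g.degree ≠ 0 := by
    intro h0
    apply hQ.ne_top
    rw [hg', Ideal.span_singleton_eq_top]
    exact isUnit_iff_degree_eq_zero.2 h0
  obtain ⟨t, ht⟩ := IsAlgClosed.exists_root g hne
  refine ⟨t, ?_, ?_⟩
  · have h3 := eval_dvd (x := t) h1
    rw [ht.eq_zero, zero_dvd_iff, eval_sub, eval_C, sub_eq_zero] at h3
    exact h3
  · have h3 := eval_dvd (x := t) h2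
    rw [ht.eq_zero, zero_dvd_iff, eval_sub, eval_C, sub_eq_zero] at h3
    exact h3

end

/-- **FIB**. -/
theorem t_FIB {K : Type u} [Field K] [IsAlgClosed K] [CharZero K] (hIRR : S_IRR K) : S_FIB K := by
  intro F p Y hp0 hF0 hcop hc x y hxy
  -- make `p` monic
  have hlead : p.leadingCoeff ≠ 0 := leadingCoeff_ne_zero.2 (ne_zero_of_natDegree_gt hp0)
  set c : K := p.leadingCoeff with hcdef
  set p₁ : K[X] := C c⁻¹ * p with hp₁
  set F₁ : K[X] := C c⁻¹ * F.comp (C c * X) with hF₁
  have hp₁m : p₁.Monic := by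
    rw [hp₁, Monic, leadingCoeff_mul, leadingCoeff_C]
    exact inv_mul_cancel₀ hlead
  have hp₁d : p₁.natDegree = p.natDegree := natDegree_C_mul (inv_ne_zero hlead)
  have hF₁d : F₁.natDegree = F.natDegree := by
    rw [hF₁, natDegree_C_mul (inv_ne_zero hlead), natDegree_comp, natDegree_C_mul_X c hlead, mul_one]
  have hcomp : F₁.comp p₁ = p₁.comp Y := by
    have h1 : (C c * X : K[X]).comp (C c⁻¹ * p) = p := by
      rw [mul_comp, C_comp, X_comp, ← mul_assoc, ← C_mul, mul_inv_cancel₀ hlead, C_1, one_mul]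
    rw [hF₁, hp₁, mul_comp, mul_comp, C_comp, C_comp, comp_assoc, h1, hc]
  have hxy₁ : p₁.eval x = F₁.eval (c⁻¹ * y) := by
    rw [hp₁, hF₁, eval_mul, eval_C, eval_mul, eval_C, eval_comp, eval_mul, eval_C, eval_X, hxy,
      ← mul_assoc, mul_inv_cancel₀ hlead, one_mul]
  obtain ⟨t, ht1, ht2⟩ := fib_monic hIRR F₁ p₁ Y hp₁m (by omega) (by omega)
    (by rw [hp₁d, hF₁d]; exact hcop) hcomp x (c⁻¹ * y) hxy₁
  refine ⟨t, ?_, ht2⟩
  rw [hp₁, eval_mul, eval_C] at ht1
  exact mul_left_cancel₀ (inv_ne_zero hlead) ht1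

end Pool.Agent.H400.CH211
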